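import Mathlib
import Pool.Agent.Lib.MP_5a5e3d_al.Defs
import Pool.Agent.Lib.MP_5a5e3d_al.Main

/-! Higman's group, and every generalised Higman group on four generators, is incoherent: it has
a finitely generated subgroup that is not finitely presented. -/

namespace Pool.Agent.Results.MP_5a5e3d_al.HigmanIncoherent

open Pool.Agent.Lib.MP_5a5e3d_al

theorem result (k : Fin 4 → ℕ) (hk : ∀ i, 1 ≤ k i) :
    ∃ N : Subgroup (GenHigman k), N.FG ∧ ¬ Group.IsFinitelyPresented N := by
  by_contra h
  exact genHigman_not_coherent k hk fun N hN => by_contra fun h' => h ⟨N, hN, h'⟩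

end Pool.Agent.Results.MP_5a5e3d_al.HigmanIncoherent
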